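import Mathlib

namespace Pool.Agent.Results.MP_a41a76_co.Cex

open Finset

variable {n m : ℕ}

/-- additive value of a bundle -/
def val (v : Fin m → ℝ) (S : Finset (Fin m)) : ℝ := ∑ g ∈ S, v g

/-- an allocation assigns each item to an agent; this is the bundle of agent `i` -/
def bundle (A : Fin m → Fin n) (i : Fin n) : Finset (Fin m) := univ.filter (fun g => A g = i)

def EF1sat (v : Fin m → ℝ) (A : Fin m → Fin n) (i : Fin n) : Prop :=
  ∀ j, j ≠ i → val v (bundle A j) ≤ val v (bundle A i) ∨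
    ∃ g ∈ bundle A j, val v (bundle A j \ {g}) ≤ val v (bundle A i)

def EFXsat (v : Fin m → ℝ) (A : Fin m → Fin n) (i : Fin n) : Prop :=
  ∀ j, j ≠ i → ∀ g ∈ bundle A j, 0 < v g → val v (bundle A j \ {g}) ≤ val v (bundle A i)

def EEF1 (v : Fin m → ℝ) (A : Fin m → Fin n) (i : Fin n) : Prop :=
  ∃ B : Fin m → Fin n, bundle B i = bundle A i ∧ EF1sat v B i

def MXS (v : Fin m → ℝ) (A : Fin m → Fin n) (i : Fin n) : Prop :=
  ∃ B : Fin m → Fin n, EFXsat v B i ∧ val v (bundle B i) ≤ val v (bundle A i)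

def w : Fin 12 → ℕ := ![4, 4, 4, 4, 5, 5, 5, 6, 5, 5, 5, 6]
def A0 : Fin 12 → Fin 3 := ![0, 1, 1, 1, 1, 1, 2, 0, 2, 2, 2, 0]
def B0 (i : Fin 3) : Fin 12 → Fin 3 := fun g => i + (![0, 0, 0, 0, 1, 1, 1, 1, 2, 2, 2, 2] : Fin 12 → Fin 3) g

lemma val_cast (S : Finset (Fin 12)) : val (fun g => (w g : ℝ)) S = ((∑ g ∈ S, w g : ℕ) : ℝ) := by
  simp [val]

lemma efx : ∀ i : Fin 3, (∀ j, j ≠ i → ∀ g ∈ bundle (B0 i) j,
    ∑ x ∈ bundle (B0 i) j \ {g}, w x ≤ ∑ x ∈ bundle (B0 i) i, w x) ∧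
    ∑ x ∈ bundle (B0 i) i, w x ≤ ∑ x ∈ bundle A0 i, w x := by
  decide +kernel

lemma key0 (c : Fin 12 → ℕ) (h : ∀ g, c g ≤ 1) (e0 : c 0 = 0) (e7 : c 7 = 0) (e11 : c 11 = 0) :
    ∑ g, w g * c g ≠ 21 := by
  have := h 1; have := h 2; have := h 3; have := h 4; have := h 5; have := h 6
  have := h 8; have := h 9; have := h 10
  simp [Fin.sum_univ_succ, w]
  omega

lemma key (B : Fin 12 → Fin 3) (h0 : B 0 = 0) (h7 : B 7 = 0) (h11 : B 11 = 0) :
    ∑ x ∈ bundle B 1, w x ≠ 21 := by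
  have hc : ∀ g, (if B g = 1 then w g else 0) = w g * (if B g = 1 then 1 else 0) := by
    intro g; split_ifs <;> simp
  unfold bundle
  rw [Finset.sum_filter, Finset.sum_congr rfl (fun g _ => hc g)]
  apply key0 (fun g => if B g = 1 then 1 else 0)
  · intro g; split_ifs <;> simp
  · simp [h0]
  · simp [h7]
  · simp [h11]

lemma total (B : Fin 12 → Fin 3) :
    ∑ x ∈ bundle B 0, w x + ∑ x ∈ bundle B 1, w x + ∑ x ∈ bundle B 2, w x = 58 := by
  have h := Finset.sum_fiberwise (s := (univ : Finset (Fin 12))) (g := B) (f := w)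
  rw [Fin.sum_univ_three] at h
  have h2 : ∑ x, w x = 58 := by decide +kernel
  rw [h2] at h
  exact h

theorem result : ∃ (n m : ℕ) (v : Fin n → Fin m → ℝ) (A : Fin m → Fin n),
    (∀ i g, 0 < v i g) ∧ (∀ i j, v i = v j) ∧ (∀ i, MXS (v i) A i) ∧ ¬ (∀ i, EEF1 (v i) A i) := by
  refine ⟨3, 12, fun _ g => (w g : ℝ), A0, ?_, fun _ _ => rfl, ?_, ?_⟩
  · intro _ g
    have : ∀ g, 0 < w g := by decide
    exact Nat.cast_pos.mpr (this g)
  · intro i
    refine ⟨B0 i, ?_, ?_⟩
    · intro j hj g hg _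
      rw [val_cast, val_cast]
      exact_mod_cast (efx i).1 j hj g hg
    · rw [val_cast, val_cast]
      exact_mod_cast (efx i).2
  · intro h
    obtain ⟨B, hB, hE⟩ := h 0
    have h16 : ∑ x ∈ bundle A0 0, w x = 16 := by decide +kernel
    have hmem : ∀ g, B g = 0 ↔ A0 g = 0 := by
      intro g
      have : g ∈ bundle B 0 ↔ g ∈ bundle A0 0 := by rw [hB]
      simpa [bundle] using this
    have h5 : ∀ g, A0 g ≠ 0 → w g ≤ 5 := by decide
    have hok : ∀ j, j ≠ 0 → ∑ x ∈ bundle B j, w x ≤ 21 := by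
      intro j hj
      rcases hE j hj with h1 | ⟨g, hg, h1⟩
      · rw [val_cast, val_cast, hB, h16] at h1
        have : ∑ x ∈ bundle B j, w x ≤ 16 := by exact_mod_cast h1
        omega
      · rw [val_cast, val_cast, hB, h16] at h1
        have h2 : ∑ x ∈ bundle B j \ {g}, w x ≤ 16 := by exact_mod_cast h1
        have h3 := Finset.sum_sdiff (f := w) (Finset.singleton_subset_iff.mpr hg)
        rw [Finset.sum_singleton] at h3
        have h4 : w g ≤ 5 := by
          apply h5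
          rw [Ne, ← hmem]
          have : B g = j := by simpa [bundle] using hg
          rw [this]; exact hj
        omega
    have t := total B
    rw [hB, h16] at t
    have a1 := hok 1 (by decide)
    have a2 := hok 2 (by decide)
    exact key B ((hmem 0).2 (by decide)) ((hmem 7).2 (by decide)) ((hmem 11).2 (by decide))
      (by omega)

end Pool.Agent.Results.MP_a41a76_co.Cex
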